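import Mathlib

/-!
# Statement F: one step in a composition series
-/

set_option autoImplicit false

open Module

namespace Pool.Agent.N64.AF

universe a b c

namespace FAux

/-- a nonzero module, finite over the field, has a nonzero vector killed by `I` -/
theorem exists_killed {Λ : Type a} [Field Λ] {A : Type b} [Ring A] [Algebra Λ A] {V : Type c}
    [AddCommGroup V] [Module Λ V] [Module A V] [IsScalarTower Λ A V] [Module.Finite Λ V]
    (I : Ideal A) (hnil : ∀ x ∈ I, ∃ n : ℕ, ∀ v : V, x ^ n • v = 0) [Nontrivial V] :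
    ∃ s : V, s ≠ 0 ∧ ∀ x ∈ I, x • s = 0 := by
  have : IsArtinian A V := isArtinian_of_tower Λ inferInstance
  have : Nontrivial (Submodule A V) := inferInstance
  obtain ⟨S, hS, -⟩ := (eq_bot_or_exists_atom_le (⊤ : Submodule A V)).resolve_left top_ne_bot
  obtain ⟨s, hsS, hs0⟩ := S.ne_bot_iff.1 hS.1
  refine ⟨s, hs0, fun x hx => ?_⟩
  -- the submodule `I s`
  let T : Submodule A V := Submodule.map (LinearMap.toSpanSingleton A V s) I
  have hT : ∀ v, v ∈ T ↔ ∃ y ∈ I, y • s = v := by
    intro v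
    simp [T, Submodule.mem_map, LinearMap.toSpanSingleton_apply]
  by_contra hne
  have hTS : T ≤ S := by
    intro v hv
    obtain ⟨y, -, rfl⟩ := (hT v).1 hv
    exact S.smul_mem y hsS
  have hT0 : T ≠ ⊥ := by
    intro h0
    have : x • s ∈ T := (hT _).2 ⟨x, hx, rfl⟩
    rw [h0] at this
    exact hne ((Submodule.mem_bot A).1 this)
  have hTeq : T = S := by
    rcases hS.le_iff.1 hTS with h | h
    · exact absurd h hT0
    · exact h
  have hsT : s ∈ T := hTeq ▸ hsS
  obtain ⟨y, hy, hys⟩ := (hT s).1 hsT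
  obtain ⟨n, hn⟩ := hnil y hy
  have : ∀ m : ℕ, y ^ m • s = s := by
    intro m
    induction m with
    | zero => simp
    | succ m ih => rw [pow_succ, mul_smul, hys, ih]
  exact hs0 ((this n).symm.trans (hn s))

end FAux

/-- F -/
theorem mod_step {Λ : Type a} [Field Λ] {A : Type b} [Ring A] [Algebra Λ A] {V : Type c}
    [AddCommGroup V] [Module Λ V] [Module A V] [IsScalarTower Λ A V] [Module.Finite Λ V]
    (I : Ideal A) [I.IsTwoSided] [Module.Finite Λ (A ⧸ I)] [IsSemisimpleRing (A ⧸ I)]
    (hnil : ∀ x ∈ I, ∃ n : ℕ, ∀ v : V, x ^ n • v = 0) (N : Submodule A V) (hN : N ≠ ⊤) :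
    ∃ (N' : Submodule A V) (g : A) (z : V), N < N' ∧ N' = N ⊔ Submodule.span A {z} ∧
      g * g - g ∈ I ∧ g • z - z ∈ N ∧ (∀ x : A, (g * x * g) • z ∈ N → g * x * g ∈ I) ∧
      finrank Λ (N'.restrictScalars Λ) = finrank Λ (N.restrictScalars Λ) +
        finrank Λ (LinearMap.range ((I.restrictScalars Λ).mkQ ∘ₗ LinearMap.mulRight Λ g)) := by
  have : Nontrivial (V ⧸ N) := Submodule.Quotient.nontrivial_iff.2 hN
  have : Module.Finite Λ (V ⧸ N) := by
    have : Module.Finite Λ (V ⧸ N.restrictScalars Λ) := inferInstance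
    exact Module.Finite.of_surjective (N.mkQ.restrictScalars Λ) N.mkQ_surjective
  obtain ⟨s, hs0, hsI⟩ := FAux.exists_killed (Λ := Λ) (V := V ⧸ N) I (by
    intro x hx
    obtain ⟨n, hn⟩ := hnil x hx
    refine ⟨n, fun v => ?_⟩
    obtain ⟨v, rfl⟩ := N.mkQ_surjective v
    rw [← map_smul, hn, map_zero])
  obtain ⟨z, rfl⟩ := N.mkQ_surjective s
  -- the annihilator of `s`
  let φ : A →ₗ[A] V ⧸ N := LinearMap.toSpanSingleton A (V ⧸ N) (N.mkQ z)
  have hφ : ∀ a : A, φ a = a • N.mkQ z := fun a => by simp [φ]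
  let J : Ideal A := LinearMap.ker φ
  have hJ : ∀ a : A, a ∈ J ↔ a • N.mkQ z = 0 := fun a => by
    rw [LinearMap.mem_ker, hφ]
  have hIJ : I ≤ J := fun x hx => (hJ x).2 (hsI x hx)
  let J' : Ideal (A ⧸ I) := J.map (Ideal.Quotient.mk I)
  have hJ' : ∀ a : A, Ideal.Quotient.mk I a ∈ J' ↔ a ∈ J := by
    intro a
    constructor
    · intro h
      obtain ⟨b, hb, hab⟩ := (Ideal.mem_map_iff_of_surjective (Ideal.Quotient.mk I)
        Ideal.Quotient.mk_surjective).1 h
      have : a - b ∈ I := Ideal.Quotient.eq.1 hab.symm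
      have h2 := J.add_mem (hIJ this) hb
      simpa using h2
    · intro h
      exact Ideal.mem_map_of_mem _ h
  obtain ⟨L', hL'⟩ := exists_isCompl J'
  have hdisj : ∀ y, y ∈ J' → y ∈ L' → y = 0 := by
    intro y h1 h2
    have := (disjoint_iff.1 hL'.disjoint)
    have hy : y ∈ J' ⊓ L' := ⟨h1, h2⟩
    rw [this] at hy
    exact (Submodule.mem_bot _).1 hy
  have h1 : (1 : A ⧸ I) ∈ J' ⊔ L' := by
    rw [codisjoint_iff.1 hL'.codisjoint]
    exact Submodule.mem_top
  obtain ⟨u, hu, gb, hgb, hug⟩ := Submodule.mem_sup.1 h1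
  obtain ⟨g, rfl⟩ := Ideal.Quotient.mk_surjective gb
  -- `g s = s`
  have hgs : g • N.mkQ z = N.mkQ z := by
    have h2 : Ideal.Quotient.mk I (1 - g) ∈ J' := by
      have : Ideal.Quotient.mk I (1 - g) = u := by
        rw [map_sub, map_one, ← hug]
        simp
      rw [this]
      exact hu
    have h3 := (hJ _).1 ((hJ' _).1 h2)
    rw [sub_smul, one_smul, sub_eq_zero] at h3
    exact h3.symm
  have hker : ∀ x : A, x • N.mkQ z = 0 → Ideal.Quotient.mk I x ∈ L' → x ∈ I := by
    intro x h2 h3
    exact Ideal.Quotient.eq_zero_iff_mem.1 (hdisj _ ((hJ' x).2 ((hJ x).2 h2)) h3)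
  have hL'mul : ∀ x : A, Ideal.Quotient.mk I (x * g) ∈ L' := by
    intro x
    rw [map_mul]
    exact L'.smul_mem (Ideal.Quotient.mk I x) hgb
  have hgg : g * g - g ∈ I := by
    apply hker
    · rw [sub_smul, mul_smul, hgs, hgs, sub_self]
    · rw [map_sub]
      exact L'.sub_mem (hL'mul g) hgb
  refine ⟨N ⊔ Submodule.span A {z}, g, z, ?_, rfl, hgg, ?_, ?_, ?_⟩
  · refine lt_of_le_of_ne le_sup_left fun h => ?_
    have hz : z ∈ N := by
      rw [h]
      exact Submodule.mem_sup_right (Submodule.mem_span_singleton_self z)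
    exact hs0 (by rw [Submodule.mkQ_apply, Submodule.Quotient.mk_eq_zero]; exact hz)
  · have : N.mkQ (g • z - z) = 0 := by
      rw [map_sub, map_smul, hgs, sub_self]
    rwa [Submodule.mkQ_apply, Submodule.Quotient.mk_eq_zero] at this
  · intro x hx
    apply hker
    · rw [← map_smul, Submodule.mkQ_apply, Submodule.Quotient.mk_eq_zero]
      exact hx
    · exact hL'mul (g * x)
  · set N' : Submodule A V := N ⊔ Submodule.span A {z} with hN'
    -- the map `a ↦ a s` over the field
    let φΛ : A →ₗ[Λ] V ⧸ N := φ.restrictScalars Λ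
    let ψ : A →ₗ[Λ] (A ⧸ I.restrictScalars Λ) :=
      (I.restrictScalars Λ).mkQ ∘ₗ LinearMap.mulRight Λ g
    have hkk : LinearMap.ker φΛ = LinearMap.ker ψ := by
      ext x
      have e1 : x ∈ LinearMap.ker φΛ ↔ x • N.mkQ z = 0 := by
        rw [LinearMap.mem_ker]
        change φ x = 0 ↔ _
        rw [hφ]
      have e2 : x ∈ LinearMap.ker ψ ↔ x * g ∈ I := by
        rw [LinearMap.mem_ker]
        change (I.restrictScalars Λ).mkQ (x * g) = 0 ↔ _
        rw [Submodule.mkQ_apply, Submodule.Quotient.mk_eq_zero]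
        rfl
      rw [e1, e2]
      constructor
      · intro h
        exact hker _ (by rw [mul_smul, hgs, h]) (hL'mul x)
      · intro h
        have := hsI _ h
        rwa [mul_smul, hgs] at this
    have hrr : finrank Λ (LinearMap.range φΛ) = finrank Λ (LinearMap.range ψ) := by
      have e1 := φΛ.quotKerEquivRange.finrank_eq
      have e2 := ψ.quotKerEquivRange.finrank_eq
      rw [← e1, ← e2, hkk]
    rw [← hrr]
    -- restrict the quotient map to `N'`
    let q : (N'.restrictScalars Λ) →ₗ[Λ] V ⧸ N :=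
      (N.mkQ.restrictScalars Λ) ∘ₗ (N'.restrictScalars Λ).subtype
    have hq : ∀ v, q v = N.mkQ v.1 := fun v => rfl
    have hrange : LinearMap.range q = LinearMap.range φΛ := by
      ext y
      constructor
      · rintro ⟨v, rfl⟩
        obtain ⟨n, hn, w, hw, hnw⟩ := Submodule.mem_sup.1 (show v.1 ∈ N' from v.2)
        obtain ⟨a, rfl⟩ := Submodule.mem_span_singleton.1 hw
        refine ⟨a, ?_⟩
        change φ a = q v
        rw [hφ, hq, ← hnw, map_add, map_smul]
        have : N.mkQ n = 0 := by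
          rw [Submodule.mkQ_apply, Submodule.Quotient.mk_eq_zero]
          exact hn
        rw [this, zero_add]
      · rintro ⟨a, rfl⟩
        refine ⟨⟨a • z, ?_⟩, ?_⟩
        · exact Submodule.mem_sup_right (Submodule.smul_mem _ _
            (Submodule.mem_span_singleton_self z))
        · rw [hq]
          change N.mkQ (a • z) = φ a
          rw [hφ, map_smul]
    have hkerq : finrank Λ (LinearMap.ker q) = finrank Λ (N.restrictScalars Λ) := by
      let e : (LinearMap.ker q) →ₗ[Λ] (N.restrictScalars Λ) :=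
        LinearMap.codRestrict (N.restrictScalars Λ)
          ((N'.restrictScalars Λ).subtype ∘ₗ (LinearMap.ker q).subtype) (by
          intro v
          have h2 : N.mkQ v.1.1 = 0 := v.2
          rw [Submodule.mkQ_apply, Submodule.Quotient.mk_eq_zero] at h2
          exact h2)
      have he : ∀ v, (e v : V) = v.1.1 := fun v => rfl
      refine (LinearEquiv.ofBijective e ⟨?_, ?_⟩).finrank_eq
      · intro v w hvw
        apply Subtype.ext
        apply Subtype.ext
        rw [← he, ← he, hvw]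
      · intro n
        have hn' : n.1 ∈ N' := (le_sup_left : N ≤ N') n.2
        refine ⟨⟨⟨n.1, hn'⟩, ?_⟩, ?_⟩
        · rw [LinearMap.mem_ker, hq, Submodule.mkQ_apply, Submodule.Quotient.mk_eq_zero]
          exact n.2
        · apply Subtype.ext
          rfl
    have := LinearMap.finrank_range_add_finrank_ker q
    rw [hkerq, hrange] at this
    omega

end Pool.Agent.N64.AF
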